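import Pool.Agent.H577R3.RM.Stmts

/-!
Task VAL of the project RANDMETAB: a valuation which separates monomials.
-/

set_option autoImplicit false

namespace Pool.Agent.H8R3.RM

open Pool.Agent.Helper777.Prof Pool.Agent.H577R3 Pool.Agent.H577R3.RM

/-- a transcendental element is a non-unit of some valuation ring -/
lemma exists_val {K : Type} [Field K] (x : K) (hx : ∀ f : Polynomial ℤ,
    Polynomial.aeval x f = 0 → ∀ k, ((f.coeff k : ℤ) : K) = 0) :
    ∃ B : ValuationSubring K, B.valuation x < 1 := by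
  let A : Subring K := (Polynomial.aeval x : Polynomial ℤ →ₐ[ℤ] K).toRingHom.range
  have hxA : x ∈ A := ⟨Polynomial.X, by simp⟩
  let I : Ideal A := Ideal.span {(⟨x, hxA⟩ : A)}
  have hI : I ≠ ⊤ := by
    intro h
    rw [Ideal.eq_top_iff_one, Ideal.mem_span_singleton'] at h
    obtain ⟨⟨a, g, hg⟩, ha⟩ := h
    have ha' : a * x = 1 := congrArg Subtype.val ha
    have hg' : Polynomial.aeval x g = a := hg
    have h1 := hx (g * Polynomial.X - 1) (by
      rw [map_sub, map_mul, Polynomial.aeval_X, map_one, hg', ha', sub_self]) 0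
    simp at h1
  obtain ⟨B, hAB, hB⟩ := Ideal.image_subset_nonunits_valuationSubring I hI
  refine ⟨B, ?_⟩
  have h2 : x ∈ B.nonunits := by
    apply hB
    exact ⟨⟨x, hxA⟩, Ideal.subset_span rfl, rfl⟩
  exact (ValuationSubring.mem_nonunits_iff B).1 h2

lemma sum_ne {K : Type} [Field K] {Γ₀ : Type} [LinearOrderedCommGroupWithZero Γ₀]
    (v : Valuation K Γ₀) (s : Finset ℕ) (m : ℕ → K) (hm : ∀ t ∈ s, m t ≠ 0)
    (hinj : Set.InjOn (fun t => v (m t)) (s : Set ℕ)) (h : ∑ t ∈ s, m t = 0) : s = ∅ := by
  by_contra hne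
  obtain ⟨t0, ht0, hmax⟩ := s.exists_max_image (fun t => v (m t))
    (Finset.nonempty_iff_ne_empty.2 hne)
  have h0 : v (m t0) ≠ 0 := (Valuation.ne_zero_iff v).2 (hm t0 ht0)
  have h1 : v (∑ t ∈ s.erase t0, m t) < v (m t0) := by
    refine Valuation.map_sum_lt v h0 ?_
    intro t ht
    have ht1 := Finset.mem_of_mem_erase ht
    refine lt_of_le_of_ne (hmax t ht1) ?_
    intro heq
    exact Finset.ne_of_mem_erase ht (hinj ht1 ht0 heq)
  have h2 : v (m t0 + ∑ t ∈ s.erase t0, m t) = v (m t0) :=
    Valuation.map_add_eq_of_lt_left v h1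
  rw [Finset.add_sum_erase _ _ ht0, h, map_zero] at h2
  exact h0 h2.symm

theorem taskVAL : TaskVAL := by
  intro n K _ θ hT
  obtain ⟨c, hc⟩ := hT
  obtain ⟨B, hB⟩ := exists_val ((θ c : Kˣ) : K) hc
  let lam : Zm n →* (B.ValueGroup)ˣ :=
    (Units.map (B.valuation : K →* B.ValueGroup)).comp (mon θ)
  have hlam : ∀ u, ((lam u : (B.ValueGroup)ˣ) : B.ValueGroup) = B.valuation (mon θ u : K) :=
    fun u => rfl
  refine ⟨(B.ValueGroup)ˣ, inferInstance, inferInstance, inferInstance, lam, ?_, ?_⟩
  · refine ⟨Multiplicative.ofAdd (Pi.single c 1), ?_⟩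
    intro h1
    have h2 := hlam (Multiplicative.ofAdd (Pi.single c 1))
    have h3 : mon θ (Multiplicative.ofAdd (Pi.single c 1)) = θ c := by
      show ∏ l, θ l ^ ((Pi.single c (1 : ℤ) : Fin n → ℤ) l) = θ c
      rw [Finset.prod_eq_single c]
      · simp
      · intro l _ hl
        rw [Pi.single_eq_of_ne hl, zpow_zero]
      · intro h; exact absurd (Finset.mem_univ c) h
    rw [h1, h3, Units.val_one] at h2
    rw [← h2] at hB
    exact lt_irrefl _ hB
  · intro s u ε hε hinj hsum
    have hkey : (s.filter fun t => ε t ≠ 0) = ∅ := by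
      have hv : ∀ t ∈ s, ε t ≠ 0 → B.valuation ((ε t : K) * (mon θ (u t) : K)) =
          ((lam (u t) : (B.ValueGroup)ˣ) : B.ValueGroup) := by
        intro t ht h0
        rw [map_mul, hlam]
        rcases hε t ht with h | h | h
        · rw [h]; simp
        · rw [h]; simp
        · exact absurd h h0
      refine sum_ne B.valuation _ (fun t => (ε t : K) * (mon θ (u t) : K)) ?_ ?_ ?_
      · intro t ht
        rw [Finset.mem_filter] at ht
        have := hv t ht.1 ht.2
        intro h0
        rw [h0, map_zero] at this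
        exact (Units.ne_zero _) this.symm
      · intro t ht t' ht' heq
        rw [Finset.mem_coe, Finset.mem_filter] at ht ht'
        apply hinj (Finset.mem_coe.2 ht.1) (Finset.mem_coe.2 ht'.1)
        have h1 := hv t ht.1 ht.2
        have h2 := hv t' ht'.1 ht'.2
        have heq' : B.valuation ((ε t : K) * (mon θ (u t) : K)) =
          B.valuation ((ε t' : K) * (mon θ (u t') : K)) := heq
        rw [h1, h2] at heq'
        exact Units.ext heq'
      · rw [Finset.sum_filter_of_ne]
        · exact hsum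
        · intro t _ h h0
          apply h
          rw [h0]; simp
    intro t ht
    by_contra h0
    have : t ∈ s.filter fun t => ε t ≠ 0 := Finset.mem_filter.2 ⟨ht, h0⟩
    rw [hkey] at this
    exact absurd this (Finset.notMem_empty t)

end Pool.Agent.H8R3.RM
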